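import Pool.Agent.W275.US.Stm

/-!
# The regularised radial average is `C¹` and Lipschitz (part US-G, `S_G`)
-/

set_option autoImplicit false

namespace Pool.Agent.W239.US

open MeasureTheory Set Pool.Agent.W275.US
open scoped ENNReal InnerProductSpace

variable {b d : ℕ}

theorem norm_cat_sq (v : Fin b → E d) : ‖cat v‖ ^ 2 = ∑ i, ‖v i‖ ^ 2 := by
  rw [EuclideanSpace.norm_sq_eq]
  simp only [EuclideanSpace.norm_sq_eq]
  rw [Fintype.sum_prod_type]
  rfl

theorem norm_z_sq (z : Z b d) : ‖z‖ ^ 2 = ∑ i, ‖zblk i z‖ ^ 2 := by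
  rw [EuclideanSpace.norm_sq_eq]
  simp only [EuclideanSpace.norm_sq_eq]
  rw [Fintype.sum_prod_type]
  rfl

theorem dir_meas (p : Seminorm ℝ (E d)) : Measurable (dir p) := by
  unfold dir
  exact (p_cont p).measurable.inv.smul measurable_id

theorem dir_bdd {p : Seminorm ℝ (E d)} (hp : Def p) : ∃ C : ℝ, 0 ≤ C ∧ ∀ u, ‖dir p u‖ ≤ C := by
  obtain ⟨C, hC0, hC⟩ := norm_le hp
  refine ⟨C, hC0.le, fun u => ?_⟩
  by_cases hu : u = 0
  · subst hu
    simp [dir, hC0.le]
  · have := hC (dir p u)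
    rwa [p_dir hp hu, mul_one] at this

/-- parametric integral against a measure with bounded support -/
theorem param {Ω F : Type} [NormedAddCommGroup Ω] [NormedSpace ℝ Ω] [FiniteDimensional ℝ Ω]
    [MeasurableSpace Ω] [BorelSpace Ω] [NormedAddCommGroup F] [NormedSpace ℝ F]
    [FiniteDimensional ℝ F] (ν : Measure Ω) [IsFiniteMeasure ν] (M : ℝ)
    (hM : ∀ᵐ ω ∂ν, ‖ω‖ ≤ M) (H : Ω × F → ℝ) (hH : ContDiff ℝ 1 H) :
    ContDiff ℝ 1 fun z => ∫ ω, H (ω, z) ∂ν := by
  have : ProperSpace Ω := FiniteDimensional.proper ℝ Ω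
  have : ProperSpace F := FiniteDimensional.proper ℝ F
  have hcH : Continuous H := hH.continuous
  have hcf : Continuous (fderiv ℝ H) := hH.continuous_fderiv one_ne_zero
  let H' : Ω × F → (F →L[ℝ] ℝ) := fun q => (fderiv ℝ H q).comp (ContinuousLinearMap.inr ℝ Ω F)
  have hcH' : Continuous H' := by
    exact hcf.clm_comp continuous_const
  -- bounds on compact sets
  have hb : ∀ z0 : F, ∃ B : ℝ, ∀ ω z, ‖ω‖ ≤ M → z ∈ Metric.ball z0 1 → ‖H' (ω, z)‖ ≤ B := by
    intro z0
    have hK : IsCompact (Metric.closedBall (0 : Ω) M ×ˢ Metric.closedBall z0 1) :=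
      (isCompact_closedBall _ _).prod (isCompact_closedBall _ _)
    obtain ⟨B, hB⟩ := hK.exists_bound_of_continuousOn hcH'.continuousOn
    refine ⟨B, fun ω z hω hz => hB _ ⟨?_, Metric.ball_subset_closedBall hz⟩⟩
    simpa using hω
  have hb0 : ∀ z0 : F, ∃ B : ℝ, ∀ ω, ‖ω‖ ≤ M → ‖H (ω, z0)‖ ≤ B := by
    intro z0
    have hK : IsCompact (Metric.closedBall (0 : Ω) M) := isCompact_closedBall _ _
    obtain ⟨B, hB⟩ := hK.exists_bound_of_continuousOn
      (f := fun ω => H (ω, z0)) (hcH.comp (Continuous.prodMk_left z0)).continuousOn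
    exact ⟨B, fun ω hω => hB _ (by simpa using hω)⟩
  have hd : ∀ z0 : F, HasFDerivAt (fun z => ∫ ω, H (ω, z) ∂ν) (∫ ω, H' (ω, z0) ∂ν) z0 := by
    intro z0
    obtain ⟨B, hB⟩ := hb z0
    obtain ⟨B0, hB0⟩ := hb0 z0
    refine hasFDerivAt_integral_of_dominated_of_fderiv_le (𝕜 := ℝ) (s := Metric.ball z0 1)
      (bound := fun _ => B) (F := fun z ω => H (ω, z)) (F' := fun z ω => H' (ω, z))
      (Metric.ball_mem_nhds z0 one_pos) ?_ ?_ ?_ ?_ ?_ ?_
    · exact Filter.Eventually.of_forall fun z =>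
        (hcH.comp (Continuous.prodMk_left z)).aestronglyMeasurable
    · refine Integrable.of_bound (hcH.comp (Continuous.prodMk_left z0)).aestronglyMeasurable B0 ?_
      filter_upwards [hM] with ω hω using hB0 ω hω
    · exact (hcH'.comp (Continuous.prodMk_left z0)).aestronglyMeasurable
    · filter_upwards [hM] with ω hω z hz using hB ω z hω hz
    · exact integrable_const B
    · refine Filter.Eventually.of_forall fun ω z _ => ?_
      have h1 : HasFDerivAt H (fderiv ℝ H (ω, z)) (ω, z) :=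
        (hH.differentiable one_ne_zero (ω, z)).hasFDerivAt
      exact h1.comp z (hasFDerivAt_prodMk_right ω z)
  rw [contDiff_one_iff_fderiv]
  refine ⟨fun z => (hd z).differentiableAt, ?_⟩
  have he : (fderiv ℝ fun z => ∫ ω, H (ω, z) ∂ν) = fun z => ∫ ω, H' (ω, z) ∂ν :=
    funext fun z => (hd z).fderiv
  rw [he]
  rw [continuous_iff_continuousAt]
  intro z0
  obtain ⟨B, hB⟩ := hb z0
  refine continuousAt_of_dominated (bound := fun _ => B) ?_ ?_ (integrable_const B) ?_
  · exact Filter.Eventually.of_forall fun z =>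
      (hcH'.comp (Continuous.prodMk_left z)).aestronglyMeasurable
  · filter_upwards [Metric.ball_mem_nhds z0 one_pos] with z hz
    filter_upwards [hM] with ω hω using hB ω z hω hz
  · exact Filter.Eventually.of_forall fun ω =>
      (hcH'.comp (Continuous.prodMk_right ω)).continuousAt

theorem sqrt_lip (a c η : ℝ) :
    (Real.sqrt (a ^ 2 + η ^ 2) - Real.sqrt (c ^ 2 + η ^ 2)) ^ 2 ≤ (a - c) ^ 2 := by
  have h1 := Real.sq_sqrt (show 0 ≤ a ^ 2 + η ^ 2 by positivity)
  have h2 := Real.sq_sqrt (show 0 ≤ c ^ 2 + η ^ 2 by positivity)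
  have h3 : a * c + η ^ 2 ≤ Real.sqrt (a ^ 2 + η ^ 2) * Real.sqrt (c ^ 2 + η ^ 2) := by
    rw [← Real.sqrt_mul (by positivity)]
    apply Real.le_sqrt_of_sq_le
    nlinarith [sq_nonneg (a * η - c * η)]
  nlinarith

theorem sqrt_reg (a η : ℝ) :
    (Real.sqrt (a ^ 2 + η ^ 2) - Real.sqrt (a ^ 2 + 0 ^ 2)) ^ 2 ≤ η ^ 2 := by
  have h1 := Real.sq_sqrt (show 0 ≤ a ^ 2 + η ^ 2 by positivity)
  have h2 := Real.sq_sqrt (show 0 ≤ a ^ 2 + 0 ^ 2 by positivity)
  have h3 : Real.sqrt (a ^ 2 + 0 ^ 2) ≤ Real.sqrt (a ^ 2 + η ^ 2) :=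
    Real.sqrt_le_sqrt (by nlinarith [sq_nonneg η])
  have h4 := Real.sqrt_nonneg (a ^ 2 + 0 ^ 2)
  nlinarith [mul_nonneg h4 (sub_nonneg.2 h3)]

theorem lip {p : Fin b → Seminorm ℝ (E d)} (hp : ∀ i, Def (p i)) {f : X b d → ℝ}
    (hf : ContDiff ℝ 1 f) (hf1 : ∀ x, ‖fderiv ℝ f x‖ ≤ 1) (t t' : Fin b → ℝ) :
    |(∫ u, f (cat fun i => t i • dir (p i) (u i)) ∂(uu p)) -
      ∫ u, f (cat fun i => t' i • dir (p i) (u i)) ∂(uu p)| ≤
    Real.sqrt (∑ i, (t i - t' i) ^ 2 * ∫ u, ‖dir (p i) u‖ ^ 2 ∂(unif (p i))) := by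
  have : ∀ i, IsProbabilityMeasure (unif (p i)) := fun i => unif_prob (hp i)
  have hpr : IsProbabilityMeasure (uu p) := by unfold uu; infer_instance
  choose C hC0 hC using fun i => dir_bdd (hp i)
  -- measurability of the maps into X
  have hcm : ∀ s : Fin b → ℝ, Measurable fun u : Fin b → E d =>
      (cat fun i => s i • dir (p i) (u i) : X b d) := by
    intro s
    unfold cat
    refine (WithLp.measurable_toLp 2 _).comp (measurable_pi_lambda _ fun q => ?_)
    have h1 : Measurable fun u : Fin b → E d => dir (p q.1) (u q.1) :=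
      (dir_meas (p q.1)).comp (measurable_pi_apply q.1)
    have h2 : Measurable fun v : E d => (s q.1 • v) q.2 := by
      have : Continuous fun v : E d => (s q.1 • v) q.2 := by fun_prop
      exact this.measurable
    exact h2.comp h1
  have hcb : ∀ s : Fin b → ℝ, ∃ R : ℝ, ∀ u : Fin b → E d,
      ‖(cat fun i => s i • dir (p i) (u i) : X b d)‖ ≤ R := by
    intro s
    refine ⟨Real.sqrt (∑ i, (|s i| * C i) ^ 2), fun u => ?_⟩
    apply Real.le_sqrt_of_sq_le
    rw [norm_cat_sq]
    refine Finset.sum_le_sum fun i _ => ?_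
    rw [norm_smul, Real.norm_eq_abs]
    have := mul_le_mul_of_nonneg_left (hC i (u i)) (abs_nonneg (s i))
    exact pow_le_pow_left₀ (by positivity) this 2
  have hint : ∀ s : Fin b → ℝ, Integrable (fun u : Fin b → E d =>
      f (cat fun i => s i • dir (p i) (u i))) (uu p) := by
    intro s
    obtain ⟨R, hR⟩ := hcb s
    obtain ⟨B, hB⟩ := (isCompact_closedBall (0 : X b d) R).exists_bound_of_continuousOn
      hf.continuous.continuousOn
    refine Integrable.of_bound (hf.continuous.measurable.comp (hcm s)).aestronglyMeasurable B ?_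
    exact Filter.Eventually.of_forall fun u => hB _ (by simpa using hR u)
  have hlip : ∀ x y, |f x - f y| ≤ ‖x - y‖ := by
    intro x y
    have := (convex_univ : Convex ℝ (univ : Set (X b d))).norm_image_sub_le_of_norm_fderiv_le
      (𝕜 := ℝ) (f := f) (C := 1) (x := y) (y := x)
      (fun z _ => hf.differentiable one_ne_zero z) (fun z _ => hf1 z) trivial trivial
    simpa using this
  rw [← integral_sub (hint t) (hint t')]
  -- the difference
  let g : (Fin b → E d) → ℝ := fun u => ‖(cat fun i => (t i - t' i) • dir (p i) (u i) : X b d)‖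
  have hgm : Measurable g := (hcm fun i => t i - t' i).norm
  obtain ⟨R, hR⟩ := hcb fun i => t i - t' i
  have hgi : Integrable g (uu p) := by
    refine Integrable.of_bound hgm.aestronglyMeasurable R ?_
    exact Filter.Eventually.of_forall fun u => by
      simpa [g] using hR u
  have hg2 : Integrable (fun u => g u ^ 2) (uu p) := by
    refine Integrable.of_bound (hgm.pow_const 2).aestronglyMeasurable (R ^ 2) ?_
    exact Filter.Eventually.of_forall fun u => by
      rw [Real.norm_eq_abs, abs_of_nonneg (sq_nonneg _)]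
      exact pow_le_pow_left₀ (norm_nonneg _) (hR u) 2
  have h1 : |∫ u, (f (cat fun i => t i • dir (p i) (u i)) -
      f (cat fun i => t' i • dir (p i) (u i))) ∂(uu p)| ≤ ∫ u, g u ∂(uu p) := by
    rw [← Real.norm_eq_abs]
    refine norm_integral_le_of_norm_le hgi (Filter.Eventually.of_forall fun u => ?_)
    rw [Real.norm_eq_abs]
    refine (hlip _ _).trans (le_of_eq ?_)
    show _ = ‖_‖
    congr 1
    ext q
    simp [cat, sub_smul]
  have h2 : (∫ u, g u ∂(uu p)) ^ 2 ≤ ∫ u, g u ^ 2 ∂(uu p) := by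
    have h := integral_nonneg (μ := uu p) (f := fun u => (g u - ∫ v, g v ∂(uu p)) ^ 2)
      (fun u => sq_nonneg _)
    have he : ∫ u, (g u - ∫ v, g v ∂(uu p)) ^ 2 ∂(uu p) =
        ∫ u, g u ^ 2 ∂(uu p) - (∫ u, g u ∂(uu p)) ^ 2 := by
      set m := ∫ v, g v ∂(uu p) with hm
      have : (fun u => (g u - m) ^ 2) = fun u => (g u ^ 2 - 2 * m * g u) + m ^ 2 := by
        funext u; ring
      have e1 : ∫ u, (g u ^ 2 - 2 * m * g u) + m ^ 2 ∂(uu p) =
          ∫ u, (g u ^ 2 - 2 * m * g u) ∂(uu p) + ∫ u, m ^ 2 ∂(uu p) :=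
        integral_add (hg2.sub (hgi.const_mul _)) (integrable_const _)
      have e2 : ∫ u, (g u ^ 2 - 2 * m * g u) ∂(uu p) =
          ∫ u, g u ^ 2 ∂(uu p) - ∫ u, 2 * m * g u ∂(uu p) :=
        integral_sub hg2 (hgi.const_mul _)
      have e3 : ∫ u, 2 * m * g u ∂(uu p) = 2 * m * m := by
        rw [integral_const_mul]
      rw [this, e1, e2, e3]
      simp
      ring
    have h' : 0 ≤ ∫ u, (g u - ∫ v, g v ∂(uu p)) ^ 2 ∂(uu p) := h
    rw [he] at h'
    linarith
  have h3 : ∫ u, g u ^ 2 ∂(uu p) =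
      ∑ i, (t i - t' i) ^ 2 * ∫ u, ‖dir (p i) u‖ ^ 2 ∂(unif (p i)) := by
    have hge : ∀ u, g u ^ 2 = ∑ i, (t i - t' i) ^ 2 * ‖dir (p i) (u i)‖ ^ 2 := by
      intro u
      show ‖_‖ ^ 2 = _
      rw [norm_cat_sq]
      refine Finset.sum_congr rfl fun i _ => ?_
      rw [norm_smul, mul_pow, Real.norm_eq_abs, sq_abs]
    have hge' : (fun u => g u ^ 2) = fun u => ∑ i, (t i - t' i) ^ 2 * ‖dir (p i) (u i)‖ ^ 2 :=
      funext hge
    rw [hge']
    have hmi : ∀ i, Measurable fun v : E d => ‖dir (p i) v‖ ^ 2 := fun i =>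
      ((dir_meas (p i)).norm).pow_const 2
    rw [integral_finsetSum]
    · refine Finset.sum_congr rfl fun i _ => ?_
      rw [integral_const_mul]
      congr 1
      have hmp : MeasurePreserving (Function.eval i) (uu p) (unif (p i)) :=
        measurePreserving_eval (fun i => unif (p i)) i
      have := hmp.map_eq
      rw [← this]
      rw [integral_map (measurable_pi_apply i).aemeasurable (hmi i).aestronglyMeasurable]
    · intro i _
      refine Integrable.const_mul ?_ _
      refine Integrable.of_bound ((hmi i).comp (measurable_pi_apply i)).aestronglyMeasurable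
        (C i ^ 2) ?_
      exact Filter.Eventually.of_forall fun u => by
        rw [Real.norm_eq_abs, abs_of_nonneg (sq_nonneg _)]
        exact pow_le_pow_left₀ (norm_nonneg _) (hC i (u i)) 2
  refine h1.trans ?_
  apply Real.le_sqrt_of_sq_le
  rw [← h3]
  exact h2

theorem main : S_G := by
  intro b d hd p hp τ hτ D hD hτD f hf hf1 η hη
  have : ∀ i, IsProbabilityMeasure (unif (p i)) := fun i => unif_prob (hp i)
  have hpr : IsProbabilityMeasure (uu p) := by unfold uu; infer_instance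
  choose C hC0 hC using fun i => dir_bdd (hp i)
  have hlip := fun t t' => lip hp hf hf1 t t'
  have hDi : ∀ i (e : ℝ), (τ i * e) ^ 2 * ∫ u, ‖dir (p i) u‖ ^ 2 ∂(unif (p i)) ≤ e ^ 2 * D := by
    intro i e
    have h := mul_le_mul_of_nonneg_left (hτD i) (sq_nonneg e)
    calc (τ i * e) ^ 2 * ∫ u, ‖dir (p i) u‖ ^ 2 ∂(unif (p i))
        = e ^ 2 * (τ i ^ 2 * ∫ u, ‖dir (p i) u‖ ^ 2 ∂(unif (p i))) := by ring
      _ ≤ e ^ 2 * D := h
  have hI0 : ∀ i, 0 ≤ ∫ u, ‖dir (p i) u‖ ^ 2 ∂(unif (p i)) := fun i =>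
    integral_nonneg fun u => sq_nonneg _
  have hLip : ∀ z z', |G p τ f η z - G p τ f η z'| ≤ Real.sqrt D * ‖z - z'‖ := by
    intro z z'
    refine (hlip _ _).trans ?_
    rw [← Real.sqrt_sq (norm_nonneg (z - z')), ← Real.sqrt_mul hD.le]
    apply Real.sqrt_le_sqrt
    rw [norm_z_sq, Finset.mul_sum]
    refine Finset.sum_le_sum fun i _ => ?_
    rw [← mul_sub]
    refine (hDi i _).trans ?_
    rw [mul_comm]
    refine mul_le_mul_of_nonneg_left ?_ hD.le
    refine (sqrt_lip _ _ _).trans ?_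
    have h1 : |‖zblk i z‖ - ‖zblk i z'‖| ≤ ‖zblk i (z - z')‖ := by
      have : zblk i (z - z') = zblk i z - zblk i z' := rfl
      rw [this]
      exact abs_norm_sub_norm_le _ _
    rw [← sq_abs]
    exact pow_le_pow_left₀ (abs_nonneg _) h1 2
  refine ⟨?_, ?_, ?_⟩
  · -- C¹
    let om : (Fin b → E d) → (Fin b → E d) := fun u i => dir (p i) (u i)
    have hom : Measurable om := measurable_pi_lambda _ fun i =>
      (dir_meas (p i)).comp (measurable_pi_apply i)
    let ν : Measure (Fin b → E d) := (uu p).map om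
    have hν : IsFiniteMeasure ν := by
      have : IsProbabilityMeasure ν := Measure.isProbabilityMeasure_map hom.aemeasurable
      infer_instance
    let H : (Fin b → E d) × Z b d → ℝ := fun q =>
      f (cat fun i => (τ i * Real.sqrt (‖zblk i q.2‖ ^ 2 + η ^ 2)) • q.1 i)
    have hH : ContDiff ℝ 1 H := by
      refine hf.comp ?_
      unfold cat
      rw [contDiff_euclidean]
      intro q
      have hz : ContDiff ℝ 1 fun r : (Fin b → E d) × Z b d => zblk q.1 r.2 := by
        unfold zblk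
        rw [contDiff_euclidean]
        intro k
        have hcl : ContDiff ℝ 1 fun z : Z b d => z (q.1, k) :=
          (EuclideanSpace.proj (𝕜 := ℝ) (q.1, k)).contDiff
        exact hcl.comp contDiff_snd
      have hs : ContDiff ℝ 1 fun r : (Fin b → E d) × Z b d =>
          Real.sqrt (‖zblk q.1 r.2‖ ^ 2 + η ^ 2) := by
        refine ContDiff.sqrt ?_ (fun r => by positivity)
        exact (hz.norm_sq ℝ).add contDiff_const
      have hw : ContDiff ℝ 1 fun r : (Fin b → E d) × Z b d => r.1 q.1 q.2 := by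
        have h1 : ContDiff ℝ 1 fun r : (Fin b → E d) × Z b d => r.1 q.1 :=
          (contDiff_apply ℝ (E d) q.1).comp contDiff_fst
        exact (EuclideanSpace.proj (𝕜 := ℝ) q.2).contDiff.comp h1
      exact (contDiff_const.mul hs).mul hw
    have hM : ∀ᵐ ω ∂ν, ‖ω‖ ≤ ∑ i, C i := by
      rw [ae_map_iff hom.aemeasurable (measurableSet_le measurable_norm measurable_const)]
      refine Filter.Eventually.of_forall fun u => ?_
      rw [pi_norm_le_iff_of_nonneg (Finset.sum_nonneg fun i _ => hC0 i)]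
      intro i
      exact (hC i (u i)).trans (Finset.single_le_sum (fun i _ => hC0 i) (Finset.mem_univ i))
    have hP := param ν (∑ i, C i) hM H hH
    have he : (fun z => ∫ ω, H (ω, z) ∂ν) = G p τ f η := by
      funext z
      have hc : Continuous fun ω : Fin b → E d => H (ω, z) :=
        hH.continuous.comp (Continuous.prodMk_left z)
      show ∫ ω, H (ω, z) ∂((uu p).map om) = _
      rw [integral_map hom.aemeasurable hc.aestronglyMeasurable]
      rfl
    rwa [he] at hP
  · intro z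
    have hL : LipschitzWith (Real.toNNReal (Real.sqrt D)) (G p τ f η) := by
      refine LipschitzWith.of_dist_le_mul fun z z' => ?_
      rw [Real.dist_eq, dist_eq_norm, Real.coe_toNNReal _ (Real.sqrt_nonneg _)]
      exact hLip z z'
    have := norm_fderiv_le_of_lipschitz ℝ (f := G p τ f η) (x₀ := z) hL
    rwa [Real.coe_toNNReal _ (Real.sqrt_nonneg _)] at this
  · intro z
    refine (hlip _ _).trans ?_
    have h1 : η * Real.sqrt (b * D) = Real.sqrt (η ^ 2 * (b * D)) := by
      rw [Real.sqrt_mul (sq_nonneg _), Real.sqrt_sq hη.le]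
    rw [h1]
    apply Real.sqrt_le_sqrt
    have h2 : η ^ 2 * (b * D) = ∑ _i : Fin b, η ^ 2 * D := by
      rw [Finset.sum_const, Finset.card_univ, Fintype.card_fin, nsmul_eq_mul]
      ring
    rw [h2]
    refine Finset.sum_le_sum fun i _ => ?_
    rw [← mul_sub]
    refine (hDi i _).trans ?_
    exact mul_le_mul_of_nonneg_right (sqrt_reg _ _) hD.le

end Pool.Agent.W239.US
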